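import Mathlib
import Pool.Agent.Helper647.FU.Fin

set_option autoImplicit false

open Set Cardinal Topology Pool.Agent.Helper647.FU

/-- No axiom is assumed: if some compact subspace of `C_p(X)`, for some `T1` space `X` of countable
extent, is not Fréchet–Urysohn, then there is a proper poset with `ℵ₁` dense sets which no filter
meets, i.e. the proper forcing axiom fails. -/
theorem Pool.Agent.Results.MP_435463_gt.NoHypothesis.result
    (X : Type) [TopologicalSpace X] [T1Space X] (hX : CountableExtent X)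
    (K : Set (X → ℝ)) (hK : IsCompact K) (hcont : ∀ f ∈ K, Continuous f)
    (hnot : ¬ FrechetUrysohnSpace K) :
    ∃ (P : Type) (_ : PartialOrder P), Nonempty P ∧ Proper P ∧
      ∃ 𝒟 : Set (Set P), #𝒟 ≤ ℵ₁ ∧ (∀ D ∈ 𝒟, ∀ p : P, ∃ q ∈ D, q ≤ p) ∧
        ¬ ∃ G : Set P, MeetsAll 𝒟 G := by
  by_contra hcon
  refine hnot (pfa_frechet ?_ hX K hK hcont)
  intro P _ _ hP 𝒟 h𝒟 hd
  by_contra hG
  exact hcon ⟨P, inferInstance, inferInstance, hP, 𝒟, h𝒟, hd, hG⟩
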