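import Mathlib
import Pool.Agent.Helper647.FU.MAFinal

set_option autoImplicit false

open Set Cardinal Topology Pool.Agent.Helper647.FU

/-- Under `MA + ¬CH`, every countably tight compact subspace of `C_p(X)`, for `X` of countable
extent, is Fréchet–Urysohn. -/
theorem Pool.Agent.Results.MP_435463_gt.TightCase.result
    (MA : MartinAxiom) (notCH : (ℵ₁ : Cardinal.{0}) < 𝔠)
    (X : Type) [TopologicalSpace X] [T1Space X] (hX : CountableExtent X)
    (K : Set (X → ℝ)) (hK : IsCompact K) (hcont : ∀ f ∈ K, Continuous f) :
    CTight K ↔ FrechetUrysohnSpace K :=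
  (ma_frechet (MA1_of_MA MA notCH) hX K hK hcont).2
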